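import Pool.Agent.H55.FFM.TD

/-!
# Row B1P of ffm_modules: the relation between `J` and its iterates
-/

set_option autoImplicit false

open MvPolynomial
open Pool.Agent.H12.ZD (pmap v O Res DenseOrbit NoInv)
open Pool.Agent.H18.HIT
open Pool.Agent.H8.TD (lc Wsp K3 xx ph)

namespace Pool.Agent.H51.FFM

open Pool.Agent.H55.FFM

theorem pf_B1P (hREM : T_REM) (hPBK : T_PBK) (hDEH : T_DEH) : T_B1P := by
  intro N k _ G I F _ _ π τ' E J n Ξ hVM hE hE1 htr hdg hirr hev
  set φ : Po N k →ₐ[k] Po N k := aeval G with hφ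
  have hit : ∀ (m : ℕ) (q : Po N k), π (φ^[m] q) = τ'^[m] (π q) := by
    intro m
    induction m with
    | zero => intro q; rfl
    | succ m ih =>
      intro q
      rw [Function.iterate_succ_apply, Function.iterate_succ_apply, ih, hVM.com]
  have hev' : evX (π J) (τ'^[n] (π J)) Ξ = 0 := by
    rw [← hit]
    have h1 := congrArg π hev
    rw [map_zero] at h1
    rw [← h1]
    unfold evX
    have h2 := Polynomial.hom_eval₂ Ξ (Polynomial.aeval J : Polynomial k →ₐ[k] Po N k).toRingHom
      (π : Po N k →+* F) (φ^[n] J)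
    have h3 : (π : Po N k →+* F).comp (Polynomial.aeval J : Polynomial k →ₐ[k] Po N k).toRingHom =
        (Polynomial.aeval (π J) : Polynomial k →ₐ[k] F).toRingHom := by
      refine Polynomial.ringHom_ext (fun a => ?_) ?_
      · simp
      · simp
    rw [h3] at h2
    exact h2.symm
  have hinj : Function.Injective τ' := (τ' : F →+* F).injective
  have htrb : ∀ m : ℕ, Transcendental k (τ'^[m] (π J)) := by
    intro m
    induction m with
    | zero => exact htr
    | succ m ih =>
      rw [Function.iterate_succ_apply']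
      intro h
      exact ih ((isAlgebraic_algHom_iff τ' hinj).1 h)
  obtain ⟨e1, e2⟩ := hREM k F (π J) (τ'^[n] (π J)) Ξ htr (htrb n) hirr hev'
  have e3 := hPBK k F τ' n {π J}
  rw [Set.image_singleton] at e3
  have e4 : Module.finrank τ'.fieldRange F = E := by
    rw [← hE, hDEH]
    rfl
  rw [e4, e1, e2] at e3
  rw [e1] at hdg
  have hd : 0 < dg k {π J, τ'^[n] (π J)} := by
    rcases Nat.eq_zero_or_pos (dg k {π J, τ'^[n] (π J)}) with h | h
    · rw [h, mul_zero] at hdg
      omega
    · exact h
  have e5 : dgX Ξ * dg k {π J, τ'^[n] (π J)} =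
      E ^ n * Ξ.natDegree * dg k {π J, τ'^[n] (π J)} := by
    rw [e3]
    ring
  exact Nat.eq_of_mul_eq_mul_right hd e5

end Pool.Agent.H51.FFM
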