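import Pool.Agent.H55.FFM.TD

/-!
# Row REM of ffm_modules: the degrees of the relation between two functions
-/

set_option autoImplicit false

open Pool.Agent.H12.ZD (pmap v O Res DenseOrbit NoInv)
open Pool.Agent.H18.HIT
open Pool.Agent.H8.TD (lc Wsp K3 xx ph)
open Polynomial

namespace Pool.Agent.H51.FFM

open Pool.Agent.H55.FFM

theorem rem_swap_coeff {k : Type} [Field k] (p : Polynomial (Polynomial k)) (i j : ℕ) :
    ((Bivariate.swap p).coeff i).coeff j = (p.coeff j).coeff i := by
  induction p using Polynomial.induction_on' with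
  | add p q hp hq =>
    rw [map_add, coeff_add, coeff_add, coeff_add, coeff_add, hp, hq]
  | monomial n f =>
    rw [Bivariate.swap_monomial, coeff_mul_C, coeff_map, coeff_C_mul, coeff_X_pow,
      coeff_monomial]
    by_cases h : j = n
    · rw [if_pos h, if_pos h.symm, mul_one]
    · rw [if_neg h, if_neg (Ne.symm h), mul_zero, coeff_zero]

theorem rem_swap_natDegree {k : Type} [Field k] (p : Polynomial (Polynomial k)) :
    (Bivariate.swap p).natDegree = dgX p := by
  unfold dgX
  refine le_antisymm ?_ ?_
  · rw [natDegree_le_iff_coeff_eq_zero]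
    intro i hi
    ext j
    rw [rem_swap_coeff, coeff_zero]
    by_cases hj : j ∈ p.support
    · refine coeff_eq_zero_of_natDegree_lt (lt_of_le_of_lt ?_ hi)
      exact Finset.le_sup (f := fun i => (p.coeff i).natDegree) hj
    · rw [notMem_support_iff.1 hj, coeff_zero]
  · refine Finset.sup_le fun j hj => ?_
    refine le_natDegree_of_ne_zero fun h => ?_
    have h1 := rem_swap_coeff p (p.coeff j).natDegree j
    rw [h, coeff_zero] at h1
    have h2 : p.coeff j ≠ 0 := mem_support_iff.1 hj
    exact leadingCoeff_ne_zero.2 h2 h1.symm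

theorem rem_evX {k F : Type} [Field k] [Field F] [Algebra k F] (a b : F)
    (p : Polynomial (Polynomial k)) : evX a b p = p.aevalAeval a b := by
  unfold evX
  induction p using Polynomial.induction_on' with
  | add p q hp hq => rw [eval₂_add, map_add, hp, hq]
  | monomial n f =>
    rw [eval₂_monomial, ← C_mul_X_pow_eq_monomial, map_mul, map_pow, aevalAeval_Y, aevalAeval_C]
    rfl

theorem rem_evX_swap {k F : Type} [Field k] [Field F] [Algebra k F] (a b : F)
    (p : Polynomial (Polynomial k)) : evX b a (Bivariate.swap p) = evX a b p := by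
  rw [rem_evX, rem_evX, Bivariate.aevalAeval_swap]

theorem rem_part {k F : Type} [Field k] [Field F] [Algebra k F] (a b : F)
    (Ξ : Polynomial (Polynomial k)) (ha : Transcendental k a) (hirr : Irreducible Ξ)
    (hev : evX a b Ξ = 0) : dg k {a} = Ξ.natDegree * dg k {a, b} := by
  -- the field of rational functions
  set K1 := IntermediateField.adjoin k {a} with hK1
  have hmem : ∀ p : Polynomial k, Polynomial.aeval a p ∈ K1 := by
    intro p
    rw [hK1, IntermediateField.mem_adjoin_simple_iff]
    exact ⟨p, 1, by rw [map_one, div_one]⟩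
  set φ : Polynomial k →+* K1 :=
    (Polynomial.aeval (R := k) (⟨a, by simpa using hmem X⟩ : K1)).toRingHom with hφ
  have hφa : ∀ p, ((φ p : K1) : F) = Polynomial.aeval a p := by
    intro p
    have h1 := Polynomial.aeval_algHom_apply K1.val (⟨a, by simpa using hmem X⟩ : K1) p
    exact h1.symm
  have hφinj : Function.Injective φ := by
    rw [injective_iff_map_eq_zero]
    intro p hp
    have h1 := hφa p
    rw [hp] at h1
    by_contra hne
    exact ha ⟨p, hne, h1.symm⟩
  let _ : Algebra (Polynomial k) K1 := φ.toAlgebra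
  have hfaith : FaithfulSMul (Polynomial k) K1 :=
    (faithfulSMul_iff_algebraMap_injective (Polynomial k) K1).2 hφinj
  have hfrac : IsFractionRing (Polynomial k) K1 := by
    refine IsFractionRing.of_field (Polynomial k) K1 fun z => ?_
    obtain ⟨r, s, hrs⟩ := (IntermediateField.mem_adjoin_simple_iff (F := k) (z : F)).1 z.2
    refine ⟨r, s, Subtype.ext ?_⟩
    rw [hrs]
    change _ = ((φ r : K1) : F) / ((φ s : K1) : F)
    rw [hφa, hφa]
  -- the degree of the relation is positive
  have hnd : Ξ.natDegree ≠ 0 := by
    intro h0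
    obtain ⟨p, hp⟩ := natDegree_eq_zero.1 h0
    rw [← hp] at hev
    unfold evX at hev
    rw [eval₂_C] at hev
    have hp0 : p = 0 := by
      by_contra hne
      exact ha ⟨p, hne, hev⟩
    rw [hp0, C_0] at hp
    exact hirr.ne_zero hp.symm
  have hprim : Ξ.IsPrimitive := hirr.isPrimitive hnd
  have hirr' : Irreducible (Ξ.map (algebraMap (Polynomial k) K1)) :=
    (hprim.irreducible_iff_irreducible_map_fraction_map (K := K1)).1 hirr
  have hroot : Polynomial.aeval b (Ξ.map (algebraMap (Polynomial k) K1)) = 0 := by
    rw [aeval_def, eval₂_map]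
    rw [← hev]
    unfold evX
    congr 1
    refine RingHom.ext fun p => ?_
    exact hφa p
  have hmin := minpoly.eq_of_irreducible hirr' hroot
  have hint : IsIntegral K1 b := by
    rw [← isAlgebraic_iff_isIntegral]
    exact ⟨_, hirr'.ne_zero, hroot⟩
  have hdeg : (minpoly K1 b).natDegree = Ξ.natDegree := by
    have hinj' : Function.Injective (algebraMap (Polynomial k) K1) := hφinj
    rw [← hmin, natDegree_mul_C, natDegree_map_eq_of_injective hinj']
    have h1 := leadingCoeff_ne_zero.2 hirr'.ne_zero
    exact inv_ne_zero h1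
  have hfin := IntermediateField.adjoin.finrank hint
  rw [hdeg] at hfin
  have htow := Module.finrank_mul_finrank K1 (IntermediateField.adjoin K1 {b}) F
  rw [hfin] at htow
  have h2 : Module.finrank (IntermediateField.adjoin K1 {b}) F = dg k {a, b} := by
    have h3 := IntermediateField.adjoin_adjoin_left k ({a} : Set F) ({b} : Set F)
    have h4 : ({a} : Set F) ∪ {b} = {a, b} := by
      rw [Set.union_comm]
      exact (Set.insert_eq a {b}).symm ▸ Set.union_comm _ _
    rw [h4] at h3
    unfold dg
    rw [← h3]
    rfl
  rw [h2] at htow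
  exact htow.symm

theorem pf_REM : T_REM := by
  intro k F _ _ _ a b Ξ ha hb hirr hev
  refine ⟨rem_part a b Ξ ha hirr hev, ?_⟩
  have h1 : Irreducible (Bivariate.swap Ξ) :=
    (MulEquiv.irreducible_iff (Bivariate.swap (R := k)).toMulEquiv).2 hirr
  have h2 : evX b a (Bivariate.swap Ξ) = 0 := by rw [rem_evX_swap, hev]
  have h3 := rem_part b a (Bivariate.swap Ξ) hb h1 h2
  rw [rem_swap_natDegree, Set.pair_comm b a] at h3
  exact h3

end Pool.Agent.H51.FFM
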